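import Pool.Agent.H88.L.Y129.TA.Final

/-!
# Perfectoid fields which are not algebraically closed: the approximation lemma
-/

open MvPolynomial WittVector Pool.Agent.Y129.TA

set_option linter.unusedSectionVars false

namespace Pool.Agent.Y129.TB

variable {p : ℕ} [hp : Fact p.Prime]

section Step

variable {R S : Type} [CommRing R] [CommRing S]

/-- `y` is obtained from `x = [x_0] + p x'` by replacing `p` by `q`. -/
def Step (q x y : WittVector p R) : Prop :=
  ∃ x' : WittVector p R, x = teichmuller p (x.coeff 0) + p * x' ∧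
    y = teichmuller p (x.coeff 0) + q * x'

theorem Step.map {q x y : WittVector p R} (h : Step q x y) (f : R →+* S) :
    Step (WittVector.map f q) (WittVector.map f x) (WittVector.map f y) := by
  obtain ⟨x', h1, h2⟩ := h
  refine ⟨WittVector.map f x', ?_, ?_⟩
  · conv_lhs => rw [h1]
    rw [map_add, map_mul, map_natCast, map_teichmuller, map_coeff]
  · rw [h2, map_add, map_mul, map_teichmuller, map_coeff]

theorem Step.exists [CharP R p] [PerfectRing R p] (q x : WittVector p R) :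
    ∃ y, Step q x y := by
  obtain ⟨x', hx'⟩ := decomp x
  exact ⟨_, x', hx', rfl⟩

variable [CharP R p] [IsDomain R]

theorem Step.unique {q x y y' : WittVector p R} (h : Step q x y) (h' : Step q x y') :
    y = y' := by
  obtain ⟨x₁, h1, h2⟩ := h
  obtain ⟨x₂, h3, h4⟩ := h'
  have h5 : (p : WittVector p R) * x₁ = p * x₂ := by
    have := h1.symm.trans h3
    exact add_left_cancel this
  have h6 := mul_left_cancel₀ (p_nonzero p R) h5
  rw [h2, h4, h6]

theorem Step.mul {q x y : WittVector p R} (h : Step q x y) (a : R) :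
    Step q (teichmuller p a * x) (teichmuller p a * y) := by
  obtain ⟨x', h1, h2⟩ := h
  have hc : (teichmuller p a * x).coeff 0 = a * x.coeff 0 := by
    rw [mul_coeff_zero, teichmuller_coeff_zero]
  refine ⟨teichmuller p a * x', ?_, ?_⟩
  · rw [hc, map_mul]
    conv_lhs => rw [h1]
    ring
  · rw [hc, map_mul, h2]
    ring

end Step

variable {K F : Type} [Field K] [Field F] [CharP F p] {T : Tilting p K F}

theorem θ_step {q : WittVector p T.O} (hq : T.θ q = p) {x y : WittVector p T.O}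
    (h : Step q x y) : T.θ y = T.θ x := by
  obtain ⟨x', h1, h2⟩ := h
  rw [h2]
  conv_rhs => rw [h1]
  rw [map_add, map_add, map_mul, map_mul, map_natCast, hq]

/-- One step of the approximation. -/
theorem step_gain [IsAlgClosed F] {ϖ : T.O} (hϖ : T.absF ϖ = T.absK p) (v : WittVector p T.O)
    {β γ : T.O} (hβ : β ≠ 0)
    {x y z : WittVector p T.O} (hx : x = teichmuller p β * z) (h1 : T.absK (T.θ x) ≤ T.absF γ)
    (h2 : T.absF γ ≤ T.absF β) (h3 : T.absF ϖ * T.absF β ≤ T.absF γ)
    (hs : Step (teichmuller p ϖ * v) x y) :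
    ∃ z', y = teichmuller p γ * z' := by
  have hβ0 : (β : F) ≠ 0 := fun h => hβ (Subtype.ext h)
  have hβp : 0 < T.absF β := T.absF.pos hβ0
  have hϖp : 0 < T.absF ϖ := by rw [hϖ]; exact T.absK.pos T.p_ne
  have hγp : 0 < T.absF γ := (mul_pos hϖp hβp).trans_le h3
  have hγ0 : (γ : F) ≠ 0 := fun h => by rw [h, map_zero] at hγp; exact lt_irrefl _ hγp
  -- `γ = β δ`
  have hδ : T.absF ((γ : F) / β) ≤ 1 := by rw [map_div₀]; exact div_le_one_of_le₀ h2 hβp.le
  let δ : T.O := ⟨(γ : F) / β, hδ⟩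
  have hβδ : γ = β * δ := Subtype.ext (mul_div_cancel₀ _ hβ0).symm
  have hδ0 : (δ : F) ≠ 0 := div_ne_zero hγ0 hβ0
  have hδp : 0 < T.absF δ := T.absF.pos hδ0
  have hγδ : T.absF γ = T.absF β * T.absF δ := by rw [hβδ, Subring.coe_mul, map_mul]
  -- the first coefficient of `z`
  have hz : T.absK (T.θ z) ≤ T.absF δ := by
    rw [hx, map_mul, T.θ_teich, map_mul, T.abs_sharp, hγδ] at h1
    exact le_of_mul_le_mul_left h1 hβp
  have hpδ : T.absK p ≤ T.absF δ := by
    rw [← hϖ]
    rw [hγδ, mul_comm (T.absF β)] at h3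
    exact le_of_mul_le_mul_right h3 hβp
  have hz0 : T.absF (z.coeff 0) ≤ T.absF δ :=
    (Tilting.abs_coeff_le T z).trans (max_le hz hpδ)
  have hu : T.absF ((z.coeff 0 : F) / δ) ≤ 1 := by
    rw [map_div₀]; exact div_le_one_of_le₀ hz0 hδp.le
  let u : T.O := ⟨(z.coeff 0 : F) / δ, hu⟩
  have hδu : z.coeff 0 = δ * u := Subtype.ext (mul_div_cancel₀ _ hδ0).symm
  have hw : T.absF ((ϖ : F) / δ) ≤ 1 := by
    rw [map_div₀]
    refine div_le_one_of_le₀ ?_ hδp.le
    rw [hϖ]
    exact hpδ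
  let w : T.O := ⟨(ϖ : F) / δ, hw⟩
  have hδw : ϖ = δ * w := Subtype.ext (mul_div_cancel₀ _ hδ0).symm
  obtain ⟨z', hz'⟩ := decomp z
  have hs' : Step (teichmuller p ϖ * v) z
    (teichmuller p (z.coeff 0) + (teichmuller p ϖ * v) * z') := ⟨z', hz', rfl⟩
  have hs2 := hs'.mul β
  rw [← hx] at hs2
  have e1 : teichmuller p ϖ = teichmuller p δ * teichmuller p w := by rw [← map_mul, ← hδw]
  have e2 : teichmuller p (z.coeff 0) = teichmuller p δ * teichmuller p u := by
    rw [← map_mul, ← hδu]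
  have e3 : teichmuller p γ = teichmuller p β * teichmuller p δ := by rw [← map_mul, ← hβδ]
  refine ⟨teichmuller p u + teichmuller p w * v * z', ?_⟩
  rw [hs.unique hs2, e1, e2, e3]
  ring

/-- After `c` steps the first coefficient is not zero, if `|θ(x)| > |p| ^ c`. -/
theorem chain_ne [IsAlgClosed F] {ϖ : T.O} (hϖ : T.absF ϖ = T.absK p) {v : WittVector p T.O}
    (hq : T.θ (teichmuller p ϖ * v) = p) {Y : ℕ → WittVector p T.O}
    (hY : ∀ j, Step (teichmuller p ϖ * v) (Y j) (Y (j + 1))) {c : ℕ}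
    (hc : T.absK p ^ c < T.absK (T.θ (Y 0))) :
    (Y c).coeff 0 ≠ 0 := by
  have hθ : ∀ j, T.θ (Y j) = T.θ (Y 0) := by
    intro j
    induction j with
    | zero => rfl
    | succ j ih => rw [θ_step hq (hY j), ih]
  obtain ⟨η, hη⟩ := T.surj (T.θ (Y 0))
  have hηa : T.absF η = T.absK (T.θ (Y 0)) := by rw [← T.abs_sharp, hη]
  have hη1 : T.absF η ≤ 1 := by rw [hηa]; exact T.θ_le _
  let η' : T.O := ⟨η, hη1⟩
  have hpp : 0 < T.absK p := T.absK.pos T.p_ne
  have hη0 : 0 < T.absF η := by rw [hηa]; exact (pow_pos hpp c).trans hc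
  have key : ∀ j, ∃ β : T.O, T.absF β = max (T.absF η) (T.absK p ^ j) ∧
      ∃ z, Y j = teichmuller p β * z := by
    intro j
    induction j with
    | zero =>
      refine ⟨1, ?_, Y 0, ?_⟩
      · rw [pow_zero, max_eq_right hη1, Subring.coe_one, map_one]
      · rw [map_one, one_mul]
    | succ j ih =>
      obtain ⟨β, hβ, z, hz⟩ := ih
      have hβp : 0 < T.absF β := by rw [hβ]; exact hη0.trans_le (le_max_left _ _)
      have hβ0 : β ≠ 0 := fun h => by rw [h, Subring.coe_zero, map_zero] at hβp; exact lt_irrefl _ hβp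
      have hγ : ∃ γ : T.O, T.absF γ = max (T.absF η) (T.absK p ^ (j + 1)) := by
        rcases le_total (T.absF η) (T.absK p ^ (j + 1)) with h | h
        · refine ⟨ϖ ^ (j + 1), ?_⟩
          rw [max_eq_right h, Subring.coe_pow, map_pow, hϖ]
        · exact ⟨η', (max_eq_left h).symm⟩
      obtain ⟨γ, hγ⟩ := hγ
      refine ⟨γ, hγ, step_gain hϖ v hβ0 hz ?_ ?_ ?_ (hY j)⟩
      · rw [hθ j, ← hηa, hγ]
        exact le_max_left _ _
      · rw [hγ, hβ]
        refine max_le_max le_rfl ?_
        exact pow_le_pow_of_le_one hpp.le T.p_lt.le (Nat.le_succ j)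
      · rw [hβ, hγ, hϖ, mul_max_of_nonneg _ _ hpp.le]
        refine max_le_max ?_ ?_
        · exact mul_le_of_le_one_left hη0.le T.p_lt.le
        · rw [pow_succ, mul_comm]
  obtain ⟨β, hβ, z, hz⟩ := key c
  have hβη : T.absF β = T.absF η := by
    rw [hβ, max_eq_left]
    rw [hηa]
    exact hc.le
  have h1 : T.absK (T.θ z) = 1 := by
    have h2 := hθ c
    rw [hz, map_mul, T.θ_teich] at h2
    have h3 := congrArg T.absK h2
    rw [map_mul, T.abs_sharp, hβη, hηa] at h3
    have h4 : T.absK (T.θ (Y 0)) ≠ 0 := by rw [← hηa]; exact hη0.ne'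
    exact mul_left_cancel₀ h4 (h3.trans (mul_one _).symm)
  have h2 : z.coeff 0 ≠ 0 := by
    intro h0
    have h3 := Tilting.abs_θ_le T z
    rw [h1, h0, Subring.coe_zero, map_zero] at h3
    exact absurd h3 (not_le.2 (max_lt zero_lt_one T.p_lt))
  rw [hz, mul_coeff_zero, teichmuller_coeff_zero]
  refine mul_ne_zero ?_ h2
  intro h0
  rw [h0, Subring.coe_zero, map_zero] at hβη
  exact hη0.ne hβη

end Pool.Agent.Y129.TB
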