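import Pool.Agent.H88.L.Y129.TB.Poly

/-!
# The image of a closed cone defined over a subfield under a finite homogeneous map is closed
-/

open MvPolynomial Pool.Agent.Y129.TA

set_option linter.unusedSectionVars false

namespace Pool.Agent.Y129.TB

/-- A homomorphism to an algebraically closed field extends to an integral extension. -/
theorem exists_hom {R S F : Type} [CommRing R] [CommRing S] [Algebra R S] [Field F] [IsAlgClosed F]
    [Algebra.IsIntegral R S] (φ : R →+* F)
    (hφ : RingHom.ker (algebraMap R S) ≤ RingHom.ker φ) :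
    ∃ ψ : S →+* F, ψ.comp (algebraMap R S) = φ := by
  have hP : (RingHom.ker φ).IsPrime := RingHom.ker_isPrime φ
  obtain ⟨Q, -, hQ, hQP⟩ := Ideal.exists_ideal_over_prime_of_isIntegral (S := S) (RingHom.ker φ) ⊥
    (by rwa [← RingHom.ker_eq_comap_bot])
  have hl : Q.LiesOver (RingHom.ker φ) := ⟨hQP.symm⟩
  let g : R ⧸ RingHom.ker φ →+* F := RingHom.kerLift φ
  have hg : Function.Injective g := RingHom.kerLift_injective φ
  let : Algebra (R ⧸ RingHom.ker φ) F := g.toAlgebra
  have h1 : FaithfulSMul (R ⧸ RingHom.ker φ) F := (faithfulSMul_iff_algebraMap_injective _ _).2 hg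
  have h3 : Algebra.IsIntegral (R ⧸ RingHom.ker φ) (S ⧸ Q) := inferInstance
  have h4 : FaithfulSMul (R ⧸ RingHom.ker φ) (S ⧸ Q) := inferInstance
  have h5 : IsDomain (S ⧸ Q) := inferInstance
  have h6 : IsDomain (R ⧸ RingHom.ker φ) := inferInstance
  have h7 : Algebra.IsAlgebraic (R ⧸ RingHom.ker φ) (S ⧸ Q) := inferInstance
  let ψ' : (S ⧸ Q) →ₐ[R ⧸ RingHom.ker φ] F := IsAlgClosed.lift
  refine ⟨ψ'.toRingHom.comp (Ideal.Quotient.mk Q), ?_⟩
  ext r
  change ψ' (algebraMap (R ⧸ RingHom.ker φ) (S ⧸ Q) (Ideal.Quotient.mk _ r)) = _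
  rw [AlgHom.commutes]
  rfl

section

variable {E : Type} [Field E] {τ ι κ : Type} [Finite τ] [Finite ι] [Finite κ]

attribute [local instance] MvPolynomial.gradedAlgebra

theorem span_isHomogeneous (G : κ → MvPolynomial τ E) (D : κ → ℕ)
    (hG : ∀ k, (G k).IsHomogeneous (D k)) :
    (Ideal.span (Set.range G)).IsHomogeneous (homogeneousSubmodule τ E) := by
  refine Ideal.homogeneous_span _ _ ?_
  rintro _ ⟨k, rfl⟩
  exact ⟨D k, hG k⟩

theorem component_mul {e n : ℕ} {a b : MvPolynomial τ E} (hb : b.IsHomogeneous e) :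
    homogeneousComponent n (a * b) = if e ≤ n then homogeneousComponent (n - e) a * b else 0 := by
  have h := DirectSum.coe_decompose_mul_of_right_mem (homogeneousSubmodule τ E) n
    (a := a) (b := b) (i := e) hb
  have h1 : ∀ (f : MvPolynomial τ E) (m : ℕ),
      ((DirectSum.decompose (homogeneousSubmodule τ E) f m : homogeneousSubmodule τ E m) :
        MvPolynomial τ E) = homogeneousComponent m f := fun f m =>
    decomposition.decompose'_apply f m
  rw [h1, h1] at h
  exact h

theorem mem_pow_of_homogeneous {f : MvPolynomial τ E} {L : ℕ} (hf : f.IsHomogeneous L) :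
    f ∈ (Ideal.span (Set.range (X : τ → MvPolynomial τ E))) ^ L := by
  classical
  have : Fintype τ := Fintype.ofFinite τ
  rw [← support_sum_monomial_coeff f]
  refine Ideal.sum_mem _ fun α hα => ?_
  have h1 : ∑ i, α i = L := sum_of_homogeneous hf hα
  have h2 : monomial α (coeff α f) = C (coeff α f) * ∏ i, (X i : MvPolynomial τ E) ^ α i := by
    rw [monomial_eq, Finsupp.prod_fintype _ _ (by simp)]
  rw [h2, ← h1, ← Finset.prod_pow_eq_pow_sum]
  refine Ideal.mul_mem_left _ _ (Ideal.prod_mem_prod fun i _ => ?_)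
  exact Ideal.pow_mem_pow (Ideal.subset_span (Set.mem_range_self i)) _

/-- The image of the cone defined by the `G k` under the map `u` is closed. -/
theorem image_closed {F : Type} [Field F] [IsAlgClosed F] [Algebra E F]
    (G : κ → MvPolynomial τ E) (D : κ → ℕ) (hD : ∀ k, 0 < D k)
    (hG : ∀ k, (G k).IsHomogeneous (D k)) (u : ι → MvPolynomial τ E) {e : ℕ} (he : 0 < e)
    (hu : ∀ i, (u i).IsHomogeneous e)
    (h0 : ∀ w : τ → F, (∀ k, aeval w (G k) = 0) → (∀ i, aeval w (u i) = 0) → w = 0) :
    ∃ J : Ideal (MvPolynomial ι E),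
      {x : ι → F | ∃ w : τ → F, (∀ k, aeval w (G k) = 0) ∧ ∀ i, x i = aeval w (u i)} =
        zeroLocus F J := by
  classical
  have : Fintype τ := Fintype.ofFinite τ
  have : Fintype ι := Fintype.ofFinite ι
  set I : Ideal (MvPolynomial τ E) := Ideal.span (Set.range G) with hI
  let mk : MvPolynomial τ E →ₐ[E] (MvPolynomial τ E ⧸ I) := Ideal.Quotient.mkₐ E I
  let φ : MvPolynomial ι E →ₐ[E] (MvPolynomial τ E ⧸ I) := aeval fun i => mk (u i)
  let : Algebra (MvPolynomial ι E) (MvPolynomial τ E ⧸ I) := φ.toRingHom.toAlgebra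
  have hsm : ∀ (r : MvPolynomial ι E) (a : MvPolynomial τ E ⧸ I), r • a = φ r * a :=
    fun r a => Algebra.smul_def r a
  -- a power of the irrelevant ideal
  set U : Ideal (MvPolynomial τ E) := Ideal.span (Set.range u) with hU
  obtain ⟨L, hL0, hL⟩ : ∃ L : ℕ, 0 < L ∧
      (Ideal.span (Set.range (X : τ → MvPolynomial τ E))) ^ L ≤ I ⊔ U := by
    have h1 : Ideal.span (Set.range (X : τ → MvPolynomial τ E)) ≤ (I ⊔ U).radical := by
      rw [Ideal.span_le]
      rintro _ ⟨i, rfl⟩
      rw [SetLike.mem_coe, ← vanishingIdeal_zeroLocus_eq_radical (K := F), mem_vanishingIdeal_iff]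
      intro w hw
      rw [mem_zeroLocus_iff] at hw
      have hw0 : w = 0 := by
        refine h0 w (fun k => ?_) fun i => ?_
        · exact hw (G k) (Ideal.mem_sup_left (Ideal.subset_span ⟨k, rfl⟩))
        · exact hw (u i) (Ideal.mem_sup_right (Ideal.subset_span ⟨i, rfl⟩))
      rw [aeval_X, hw0]
      rfl
    obtain ⟨L, hL⟩ := Ideal.exists_pow_le_of_le_radical_of_fg h1
      ⟨(Set.finite_range (X : τ → MvPolynomial τ E)).toFinset, by simp⟩
    exact ⟨L + 1, Nat.succ_pos L, (Ideal.pow_le_pow_right (Nat.le_succ L)).trans hL⟩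
  -- the module generated by the monomials of degree less than `L`
  let M : Submodule (MvPolynomial ι E) (MvPolynomial τ E ⧸ I) :=
    Submodule.span _ {a | ∃ α : τ →₀ ℕ, α.degree < L ∧ a = mk (monomial α 1)}
  have hCM : ∀ (c : E) (a : MvPolynomial τ E ⧸ I), a ∈ M → mk (C c) * a ∈ M := by
    intro c a ha
    have h1 : mk (C c) * a = (C c : MvPolynomial ι E) • a := by
      rw [hsm]
      congr 1
      change _ = aeval _ (C c)
      rw [aeval_C]
      rfl
    rw [h1]
    exact M.smul_mem _ ha
  have hlow : ∀ (f : MvPolynomial τ E) (m : ℕ), m < L → f.IsHomogeneous m → mk f ∈ M := by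
    intro f m hm hf
    rw [← support_sum_monomial_coeff f, map_sum]
    refine Submodule.sum_mem _ fun α hα => ?_
    have h1 : monomial α (coeff α f) = C (coeff α f) * monomial α 1 := by
      rw [C_mul_monomial, mul_one]
    rw [h1, map_mul]
    refine hCM _ _ (Submodule.subset_span ⟨α, ?_, rfl⟩)
    have h2 : ∑ i, α i = m := sum_of_homogeneous hf hα
    have h3 : α.degree = ∑ i, α i := by
      rw [Finsupp.degree_apply]
      exact Finset.sum_subset (Finset.subset_univ _) (by simp)
    omega
  have htop : ∀ f : MvPolynomial τ E, f.IsHomogeneous L → mk f ∈ M := by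
    intro f hf
    have h1 := hL (mem_pow_of_homogeneous hf)
    obtain ⟨b, hb, a, ha, hba⟩ := Submodule.mem_sup.1 h1
    obtain ⟨c, hc⟩ := (Ideal.mem_span_range_iff_exists_fun).1 ha
    have h2 : f = homogeneousComponent L b + ∑ i, homogeneousComponent L (c i * u i) := by
      rw [← map_sum, hc, ← map_add, hba, homogeneousComponent_eq_self hf]
    have h3 : mk (homogeneousComponent L b) = 0 :=
      Ideal.Quotient.eq_zero_iff_mem.2
        (homogeneousComponent_mem_of_mem (span_isHomogeneous G D hG) hb L)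
    rw [h2, map_add, h3, zero_add, map_sum]
    refine Submodule.sum_mem _ fun i _ => ?_
    rw [component_mul (hu i)]
    split_ifs with h4
    · have h5 : mk (homogeneousComponent (L - e) (c i) * u i) =
          (X i : MvPolynomial ι E) • mk (homogeneousComponent (L - e) (c i)) := by
        rw [hsm, map_mul, mul_comm]
        congr 1
        change _ = aeval _ (X i)
        rw [aeval_X]
      rw [h5]
      exact M.smul_mem _ (hlow _ (L - e) (by omega) (homogeneousComponent_isHomogeneous _ _))
    · rw [map_zero]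
      exact M.zero_mem
  have hX : ∀ (j : τ) (a : MvPolynomial τ E ⧸ I), a ∈ M → mk (X j) * a ∈ M := by
    intro j a ha
    induction ha using Submodule.span_induction with
    | mem a ha =>
      obtain ⟨α, hα, rfl⟩ := ha
      rw [← map_mul]
      have h1 : (X j * monomial α 1 : MvPolynomial τ E).IsHomogeneous (1 + α.degree) :=
        (isHomogeneous_X E j).mul (isHomogeneous_monomial _ rfl)
      rcases Nat.lt_or_ge (1 + α.degree) L with h2 | h2
      · exact hlow _ _ h2 h1
      · have h3 : 1 + α.degree = L := by omega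
        rw [h3] at h1
        exact htop _ h1
    | zero => rw [mul_zero]; exact M.zero_mem
    | add a b _ _ ha hb => rw [mul_add]; exact M.add_mem ha hb
    | smul r a _ ha =>
      rw [hsm, mul_left_comm, ← hsm]
      exact M.smul_mem _ ha
  have hall : ∀ f : MvPolynomial τ E, mk f ∈ M := by
    intro f
    have h1 : (1 : MvPolynomial τ E ⧸ I) ∈ M := by
      have h2 := hlow 1 0 hL0 (isHomogeneous_one _ _)
      rwa [map_one] at h2
    induction f using MvPolynomial.induction_on with
    | C c =>
      have h2 := hCM c 1 h1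
      rwa [mul_one] at h2
    | add f g hf hg => rw [map_add]; exact M.add_mem hf hg
    | mul_X f j hf => rw [map_mul, mul_comm]; exact hX j _ hf
  have hfin : Module.Finite (MvPolynomial ι E) (MvPolynomial τ E ⧸ I) := by
    refine ⟨Submodule.fg_def.2 ⟨{a | ∃ α : τ →₀ ℕ, α.degree < L ∧ a = mk (monomial α 1)}, ?_, ?_⟩⟩
    · have h1 : {a | ∃ α : τ →₀ ℕ, α.degree < L ∧ a = mk (monomial α 1)} =
          (fun α : τ →₀ ℕ => mk (monomial α 1)) '' {α | α.degree < L} := by
        ext a
        constructor
        · rintro ⟨α, h, rfl⟩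
          exact ⟨α, h, rfl⟩
        · rintro ⟨α, h, rfl⟩
          exact ⟨α, h, rfl⟩
      rw [h1]
      refine Set.Finite.image _ ((Finsupp.finite_of_degree_le L).subset fun α hα => ?_)
      exact (show α.degree < L from hα).le
    · rw [eq_top_iff]
      rintro a -
      obtain ⟨f, rfl⟩ := Ideal.Quotient.mk_surjective a
      exact hall f
  have hint : Algebra.IsIntegral (MvPolynomial ι E) (MvPolynomial τ E ⧸ I) := inferInstance
  refine ⟨RingHom.ker (algebraMap (MvPolynomial ι E) (MvPolynomial τ E ⧸ I)), ?_⟩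
  have h9 : φ = mk.comp (aeval u) := by
    ext i
    change aeval (fun i => mk (u i)) (X i) = mk (aeval u (X i))
    rw [aeval_X, aeval_X]
  ext x
  constructor
  · rintro ⟨w, hw, hx⟩
    rw [mem_zeroLocus_iff]
    intro f hf
    have h1 : φ f = 0 := hf
    have h2 : φ f = mk (aeval u f) := by
      rw [h9]
      rfl
    rw [h2] at h1
    have h3 : aeval u f ∈ I := Ideal.Quotient.eq_zero_iff_mem.1 h1
    have h4 : I ≤ RingHom.ker (aeval w : MvPolynomial τ E →ₐ[E] F) := by
      rw [hI, Ideal.span_le]
      rintro _ ⟨k, rfl⟩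
      exact hw k
    have h5 : aeval w (aeval u f) = 0 := h4 h3
    have h6 : x = fun i => aeval w (u i) := funext hx
    have h7 : aeval w (aeval u f) = aeval (fun i => aeval w (u i)) f := by
      have h8 : ((aeval w : MvPolynomial τ E →ₐ[E] F).comp (aeval u)) =
          aeval (fun i => aeval w (u i)) := by
        ext i
        simp
      exact congrArg (fun ψ : MvPolynomial ι E →ₐ[E] F => ψ f) h8
    rw [h6, ← h7]
    exact h5
  · intro hx
    rw [mem_zeroLocus_iff] at hx
    obtain ⟨ψ, hψ⟩ := exists_hom (R := MvPolynomial ι E) (S := MvPolynomial τ E ⧸ I)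
      (aeval x : MvPolynomial ι E →ₐ[E] F).toRingHom (fun f hf => hx f hf)
    have hψ' : ∀ f : MvPolynomial ι E, ψ (φ f) = aeval x f := fun f =>
      congrArg (fun g : MvPolynomial ι E →+* F => g f) hψ
    have hc : ∀ c : E, ψ (mk (C c)) = algebraMap E F c := by
      intro c
      have h1 := hψ' (C c)
      have h2 : aeval x (C c : MvPolynomial ι E) = algebraMap E F c := aeval_C _ _
      rw [← h2, ← h1]
      congr 1
      change _ = aeval _ (C c)
      rw [aeval_C]
      rfl
    have hw : ∀ f : MvPolynomial τ E, ψ (mk f) = aeval (fun t => ψ (mk (X t))) f := by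
      intro f
      induction f using MvPolynomial.induction_on with
      | C c => rw [hc, aeval_C]
      | add f g hf hg => rw [map_add, map_add, hf, hg, map_add]
      | mul_X f j hf => rw [map_mul, map_mul, hf, map_mul, aeval_X]
    refine ⟨fun t => ψ (mk (X t)), fun k => ?_, fun i => ?_⟩
    · rw [← hw]
      have h1 : mk (G k) = 0 := Ideal.Quotient.eq_zero_iff_mem.2 (Ideal.subset_span ⟨k, rfl⟩)
      rw [h1, map_zero]
    · rw [← hw]
      have h1 := hψ' (X i)
      have h2 : aeval x (X i : MvPolynomial ι E) = x i := aeval_X _ _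
      rw [← h2, ← h1]
      congr 1
      change aeval (fun i => mk (u i)) (X i) = _
      rw [aeval_X]

end

end Pool.Agent.Y129.TB
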