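import Pool.Agent.H88.L.Y129.TB.Approx

/-!
# The approximation lemma for polynomials over a perfectoid field
-/

open MvPolynomial WittVector Pool.Agent.Y129.TA

set_option linter.unusedSectionVars false

namespace Pool.Agent.Y129.TB

variable {p : ℕ} [hp : Fact p.Prime] {C F : Type} [Field C] [Field F]

/-- The ring of integers of `E`, as a subring of the ring of integers of `F`. -/
def OE (T : TiltPair p C F) (E : Type) [Field E] [Algebra E F] : Subring T.O :=
  (algebraMap E F).range.comap T.O.subtype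

/-- The components of the Witt vector `x` lie in `E`. -/
def CoeffsIn (T : TiltPair p C F) (E : Type) [Field E] [Algebra E F] (x : WittVector p T.O) : Prop :=
  ∀ n, ∃ c : E, algebraMap E F c = ((x.coeff n : T.O) : F)

/-- The value `y` of the map `θ` of Fontaine at `x`. -/
def ThetaEq (T : Tilting p C F) (x : WittVector p T.O) (y : C) : Prop := T.θ x = y

/-- `K` is a perfectoid subfield of `C` with tilt `E`, a subfield of `F`: `E` is perfect, it contains
an element of the absolute value of `p`, and the map `θ` maps the Witt vectors over the ring of integers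
of `E` onto the ring of integers of `K`. -/
structure BaseField (T : Tilting p C F) (K E : Type) [Field K] [Field E] [Algebra K C]
    [Algebra E F] : Prop where
  perf : ∀ a : E, ∃ b : E, b ^ p = a
  val : ∃ ϖ : E, T.absF (algebraMap E F ϖ) = T.absK p
  θ_mem : ∀ x : WittVector p T.O, CoeffsIn T.toTiltPair E x → ∃ y : K, ThetaEq T x (algebraMap K C y)
  θ_surj : ∀ y : K, T.absK (algebraMap K C y) ≤ 1 → ∃ x : WittVector p T.O,
    CoeffsIn T.toTiltPair E x ∧ ThetaEq T x (algebraMap K C y)

section

variable {T : Tilting p C F} {K E : Type} [Field K] [Field E] [Algebra K C] [Algebra E F]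

theorem BaseField.mem (B : BaseField T K E) (x : WittVector p (OE T.toTiltPair E)) : ∃ y : K,
    T.θ (WittVector.map (OE T.toTiltPair E).subtype x) = algebraMap K C y := by
  refine B.θ_mem _ fun n => ?_
  rw [map_coeff]
  exact (x.coeff n).2

theorem BaseField.surj (B : BaseField T K E) (y : K) (hy : T.absK (algebraMap K C y) ≤ 1) :
    ∃ x : WittVector p (OE T.toTiltPair E),
      T.θ (WittVector.map (OE T.toTiltPair E).subtype x) = algebraMap K C y := by
  obtain ⟨x, hx, hxy⟩ := B.θ_surj y hy
  refine ⟨WittVector.mk p fun n => ⟨x.coeff n, hx n⟩, ?_⟩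
  have h1 : WittVector.map (OE T.toTiltPair E).subtype (WittVector.mk p fun n => ⟨x.coeff n, hx n⟩) =
      x := by
    ext n
    rw [map_coeff]
    rfl
  rw [h1]
  exact hxy

end

variable [CharP F p]

/-- The functions with values in the ring of integers a power `p ^ M` of which is a polynomial with
coefficients in `E`. -/
def polyFun (T : Tilting p C F) (E : Type) [Field E] [Algebra E F] (σ : Type) :
    Subring ((σ → T.O) → T.O) where
  carrier := {a | ∃ (M : ℕ) (Q : MvPolynomial σ E), ∀ t, ((a t : T.O) : F) ^ p ^ M =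
    aeval (fun i => ((t i : T.O) : F)) Q}
  mul_mem' := by
    rintro a b ⟨M, Q, h⟩ ⟨M', Q', h'⟩
    refine ⟨M + M', Q ^ p ^ M' * Q' ^ p ^ M, fun t => ?_⟩
    rw [map_mul, map_pow, map_pow, ← h, ← h', Pi.mul_apply, Subring.coe_mul, mul_pow, pow_add,
      pow_mul, mul_comm (p ^ M) (p ^ M'), pow_mul (b t : F)]
  one_mem' := ⟨0, 1, fun t => by simp⟩
  add_mem' := by
    rintro a b ⟨M, Q, h⟩ ⟨M', Q', h'⟩
    refine ⟨M + M', Q ^ p ^ M' + Q' ^ p ^ M, fun t => ?_⟩
    rw [map_add, map_pow, map_pow, ← h, ← h', Pi.add_apply, Subring.coe_add, add_pow_char_pow,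
      pow_add, pow_mul, mul_comm (p ^ M) (p ^ M'), pow_mul (b t : F)]
  zero_mem' := ⟨0, 0, fun t => by simp⟩
  neg_mem' := by
    rintro a ⟨M, Q, h⟩
    refine ⟨M, MvPolynomial.C ((-1) ^ p ^ M) * Q, fun t => ?_⟩
    rw [map_mul, aeval_C, ← h, Pi.neg_apply, Subring.coe_neg, neg_pow, map_pow, map_neg, map_one]

variable (T : Tilting p C F) (E : Type) [Field E] [Algebra E F] (σ : Type)

instance perfectPolyFun [IsAlgClosed F] : PerfectRing (polyFun T E σ) p := by
  refine ⟨⟨fun a b hab => ?_, fun a => ?_⟩⟩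
  · refine Subtype.ext (funext fun t => ?_)
    have h1 := congrArg (fun c : polyFun T E σ => (c : (σ → T.O) → T.O) t) hab
    exact frobenius_inj T.O p h1
  · choose b hb using fun t => frob_surj T.toTiltPair ((a : (σ → T.O) → T.O) t)
    obtain ⟨M, Q, h⟩ := a.2
    refine ⟨⟨b, M + 1, Q, fun t => ?_⟩, Subtype.ext (funext fun t => hb t)⟩
    rw [← h t, ← hb t, pow_succ', pow_mul, Subring.coe_pow]

/-- The constant functions. -/
def constFun : OE T.toTiltPair E →+* polyFun T E σ where
  toFun c := ⟨fun _ => c, by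
    obtain ⟨b, hb⟩ := c.2
    exact ⟨0, MvPolynomial.C b, fun t => by
      rw [pow_zero, pow_one, aeval_C]
      exact hb.symm⟩⟩
  map_one' := rfl
  map_mul' _ _ := rfl
  map_zero' := rfl
  map_add' _ _ := rfl

variable {σ}

/-- The value at `t`. -/
def ev (t : σ → T.O) : polyFun T E σ →+* T.O :=
  (Pi.evalRingHom (fun _ => T.O) t).comp (polyFun T E σ).subtype

variable [Fintype σ]

/-- A monomial. -/
def monFun (α : σ →₀ ℕ) : polyFun T E σ :=
  ⟨fun t => ∏ i, t i ^ α i, 0, monomial α 1, fun t => by
    rw [pow_zero, pow_one, aeval_monomial, map_one, one_mul, Finsupp.prod_fintype _ _ (by simp)]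
    push_cast
    rfl⟩

theorem ev_const (t : σ → T.O) : (ev T E t).comp (constFun T E σ) = (OE T.toTiltPair E).subtype :=
  rfl

theorem ev_mon (t : σ → T.O) (α : σ →₀ ℕ) : ev T E t (monFun T E α) = ∏ i, t i ^ α i := rfl

variable {E} {K : Type} [Field K] [Algebra K C]

/-- The lift of a polynomial. -/
noncomputable def lift (h : MvPolynomial σ K) (H : (σ →₀ ℕ) → WittVector p (OE T.toTiltPair E)) :
    WittVector p (polyFun T E σ) :=
  ∑ α ∈ h.support, WittVector.map (constFun T E σ) (H α) * teichmuller p (monFun T E α)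

theorem map_map' {R S A : Type} [CommRing R] [CommRing S] [CommRing A] (f : R →+* S) (g : S →+* A)
    (x : WittVector p R) : WittVector.map g (WittVector.map f x) = WittVector.map (g.comp f) x := by
  ext n
  simp [map_coeff]

theorem map_lift (h : MvPolynomial σ K) (H : (σ →₀ ℕ) → WittVector p (OE T.toTiltPair E))
    (t : σ → T.O) :
    WittVector.map (ev T E t) (lift T h H) =
      ∑ α ∈ h.support, WittVector.map (OE T.toTiltPair E).subtype (H α) *
        teichmuller p (∏ i, t i ^ α i) := by
  rw [lift, map_sum]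
  refine Finset.sum_congr rfl fun α _ => ?_
  rw [map_mul, map_teichmuller, ev_mon, map_map', ev_const]

theorem θ_lift (h : MvPolynomial σ K) (H : (σ →₀ ℕ) → WittVector p (OE T.toTiltPair E))
    (hH : ∀ α, T.θ (WittVector.map (OE T.toTiltPair E).subtype (H α)) = algebraMap K C (coeff α h))
    (t : σ → T.O) :
    T.θ (WittVector.map (ev T E t) (lift T h H)) = aeval (fun i => T.sharp (t i)) h := by
  rw [map_lift, map_sum, aeval_def, eval₂_eq']
  refine Finset.sum_congr rfl fun α _ => ?_
  rw [map_mul, hH, T.θ_teich]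
  congr 1
  push_cast
  rw [map_prod]
  refine Finset.prod_congr rfl fun i _ => ?_
  rw [map_pow]

theorem map_lift_smul {h : MvPolynomial σ K} {d : ℕ} (hh : h.IsHomogeneous d)
    (H : (σ →₀ ℕ) → WittVector p (OE T.toTiltPair E)) (a : T.O) (t : σ → T.O) :
    WittVector.map (ev T E fun i => a * t i) (lift T h H) =
      teichmuller p (a ^ d) * WittVector.map (ev T E t) (lift T h H) := by
  rw [map_lift, map_lift, Finset.mul_sum]
  refine Finset.sum_congr rfl fun α hα => ?_
  have h1 := sum_of_homogeneous hh hα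
  have h3 : ∏ i, (a * t i) ^ α i = a ^ d * ∏ i, t i ^ α i := by
    simp_rw [mul_pow]
    rw [Finset.prod_mul_distrib, Finset.prod_pow_eq_pow_sum, h1]
  rw [h3, map_mul]
  ring

theorem homogeneousComponent_map {R S : Type} [CommRing R] [CommRing S] (f : R →+* S) (D : ℕ)
    (Q : MvPolynomial σ R) :
    homogeneousComponent D (MvPolynomial.map f Q) = MvPolynomial.map f (homogeneousComponent D Q) := by
  ext α
  rw [coeff_homogeneousComponent, coeff_map, coeff_map, coeff_homogeneousComponent]
  split_ifs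
  · rfl
  · rw [map_zero]

/-- The approximation lemma: for a homogeneous polynomial `h` over `K` and `ε > 0` there is a
homogeneous polynomial `g` over `E` such that `|h(t♯)| ≤ ε` for all zeros `t` of `g` in the unit ball of
`F`. -/
theorem approx [IsAlgClosed F] (T : Tilting p C F) (B : BaseField T K E) {h : MvPolynomial σ K}
    {d : ℕ} (hd : 0 < d) (hh : h.IsHomogeneous d) {ε : ℝ} (hε : 0 < ε) :
    ∃ D, 0 < D ∧ ∃ g : MvPolynomial σ E, g.IsHomogeneous D ∧ ∀ t : σ → F,
      (∀ i, T.absF (t i) ≤ 1) → aeval t g = 0 → T.absK (aeval (fun i => T.sharp (t i)) h) ≤ ε := by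
  classical
  have hpp : 0 < T.absK p := T.absK.pos T.p_ne
  -- the coefficients become integral
  obtain ⟨b, hb⟩ : ∃ b : ℝ, ∀ α ∈ h.support, T.absK (algebraMap K C (coeff α h)) ≤ b :=
    ⟨∑ α ∈ h.support, T.absK (algebraMap K C (coeff α h)), fun α hα =>
      Finset.single_le_sum (f := fun α => T.absK (algebraMap K C (coeff α h)))
        (fun α _ => T.absK.nonneg _) hα⟩
  obtain ⟨m, hm⟩ : ∃ m : ℕ, T.absK p ^ m * max b 1 < 1 := by
    obtain ⟨m, hm⟩ := exists_pow_lt_of_lt_one (show (0 : ℝ) < 1 / max b 1 by positivity) T.p_lt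
    refine ⟨m, ?_⟩
    rwa [lt_div_iff₀ (by positivity)] at hm
  let h' : MvPolynomial σ K := MvPolynomial.C ((p : K) ^ m) * h
  have hh' : h'.IsHomogeneous d := by
    have h1 := (isHomogeneous_C σ ((p : K) ^ m)).mul hh
    rwa [zero_add] at h1
  have hint : ∀ α, T.absK (algebraMap K C (coeff α h')) ≤ 1 := by
    intro α
    rw [coeff_C_mul, map_mul, map_mul, map_pow, map_natCast, map_pow]
    by_cases hα : α ∈ h.support
    · refine (mul_le_mul_of_nonneg_left ((hb α hα).trans (le_max_left b 1))
        (pow_nonneg hpp.le m)).trans hm.le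
    · rw [notMem_support_iff.1 hα, map_zero, map_zero, mul_zero]
      exact zero_le_one
  choose H hH using fun α => B.surj (coeff α h') (hint α)
  obtain ⟨c, hc⟩ := exists_pow_lt_of_lt_one (show 0 < ε * T.absK p ^ m by positivity) T.p_lt
  -- the element `q` with `θ(q) = p`
  obtain ⟨ϖ₀, hϖ₀⟩ := B.val
  let ϖ : T.O := ⟨algebraMap E F ϖ₀, by
    change T.absF _ ≤ 1
    rw [hϖ₀]
    exact T.p_lt.le⟩
  have hϖ : T.absF ϖ = T.absK p := hϖ₀
  have hϖF : (ϖ : F) ≠ 0 := by
    intro h0
    rw [h0, map_zero] at hϖ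
    exact hpp.ne hϖ
  let ϖ' : OE T.toTiltPair E := ⟨ϖ, ϖ₀, rfl⟩
  obtain ⟨s, hs⟩ := B.mem (teichmuller p ϖ')
  rw [map_teichmuller] at hs
  have hs1 : T.θ (teichmuller p ϖ) = algebraMap K C s := hs
  rw [T.θ_teich] at hs1
  have hsne : algebraMap K C s ≠ 0 := by
    rw [← hs1]
    exact T.toTiltPair.sharp_ne hϖF
  have hp' : T.absK (algebraMap K C ((p : K) / s)) ≤ 1 := by
    rw [map_div₀, map_div₀, map_natCast, ← hs1, T.abs_sharp, hϖ, div_self hpp.ne']
  obtain ⟨v₀, hv₀⟩ := B.surj ((p : K) / s) hp'
  have hq : T.θ (teichmuller p ϖ * WittVector.map (OE T.toTiltPair E).subtype v₀) = p := by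
    rw [map_mul, hv₀, T.θ_teich, hs1, map_div₀, map_natCast]
    exact mul_div_cancel₀ _ hsne
  -- the chain
  let q : WittVector p (polyFun T E σ) := WittVector.map (constFun T E σ) (teichmuller p ϖ' * v₀)
  have hqt : ∀ t : σ → T.O, WittVector.map (ev T E t) q =
      teichmuller p ϖ * WittVector.map (OE T.toTiltPair E).subtype v₀ := by
    intro t
    change WittVector.map (ev T E t) (WittVector.map (constFun T E σ) _) = _
    rw [map_map', ev_const, map_mul, map_teichmuller]
    rfl
  choose next hnext using fun x : WittVector p (polyFun T E σ) => Step.exists q x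
  let Y : ℕ → WittVector p (polyFun T E σ) := fun j => next^[j] (lift T h' H)
  have hY : ∀ j, Step q (Y j) (Y (j + 1)) := by
    intro j
    change Step _ (next^[j] _) (next^[j + 1] _)
    rw [Function.iterate_succ_apply']
    exact hnext _
  have hYt : ∀ (t : σ → T.O) j,
      Step (teichmuller p ϖ * WittVector.map (OE T.toTiltPair E).subtype v₀)
        (WittVector.map (ev T E t) (Y j)) (WittVector.map (ev T E t) (Y (j + 1))) := fun t j => by
    have h1 := (hY j).map (ev T E t)
    rwa [hqt] at h1
  have hsc : ∀ (a : T.O) (t : σ → T.O) j, WittVector.map (ev T E fun i => a * t i) (Y j) =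
      teichmuller p (a ^ d) * WittVector.map (ev T E t) (Y j) := by
    intro a t j
    induction j with
    | zero => exact map_lift_smul T hh' H a t
    | succ j ih =>
      have h1 := hYt (fun i => a * t i) j
      rw [ih] at h1
      exact h1.unique ((hYt t j).mul (a ^ d))
  obtain ⟨M, Q, hQ⟩ := ((Y c).coeff 0).2
  have hval : ∀ t : σ → T.O, (((WittVector.map (ev T E t) (Y c)).coeff 0 : T.O) : F) ^ p ^ M =
      aeval (fun i => ((t i : T.O) : F)) Q := fun t => hQ t
  refine ⟨d * p ^ M, Nat.mul_pos hd (pow_pos hp.out.pos M), homogeneousComponent (d * p ^ M) Q,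
    homogeneousComponent_isHomogeneous _ _, fun t ht h0 => ?_⟩
  let t' : σ → T.O := fun i => ⟨t i, ht i⟩
  have hcomp : aeval t (homogeneousComponent (d * p ^ M) Q) = aeval t Q := by
    have h5 : eval t (homogeneousComponent (d * p ^ M) (MvPolynomial.map (algebraMap E F) Q)) =
        eval t (MvPolynomial.map (algebraMap E F) Q) := by
      refine eval_component T.toTiltPair ϖ (fun h => hϖF (by rw [h]; rfl)) (by rw [hϖ]; exact T.p_lt)
        fun a => ?_
      have h1 := hval fun i => a * t' i
      have h2 := hval t'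
      rw [hsc a t' c, mul_coeff_zero, teichmuller_coeff_zero, Subring.coe_mul, mul_pow, h2,
        Subring.coe_pow, ← pow_mul] at h1
      rw [eval_map, eval_map, ← aeval_def, ← aeval_def]
      exact h1.symm
    rw [homogeneousComponent_map, eval_map, eval_map, ← aeval_def, ← aeval_def] at h5
    exact h5
  rw [hcomp] at h0
  have h1 : (WittVector.map (ev T E t') (Y c)).coeff 0 = 0 := by
    have h2 := hval t'
    have h3 : aeval (fun i => ((t' i : T.O) : F)) Q = 0 := h0
    rw [h3] at h2
    exact Subtype.ext (pow_eq_zero_iff (pow_pos hp.out.pos M).ne' |>.1 h2)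
  have h2 : T.absK (T.θ (WittVector.map (ev T E t') (Y 0))) ≤ T.absK p ^ c := by
    by_contra hlt
    push Not at hlt
    exact chain_ne hϖ hq (Y := fun j => WittVector.map (ev T E t') (Y j)) (hYt t') hlt h1
  have h3 : T.θ (WittVector.map (ev T E t') (Y 0)) = aeval (fun i => T.sharp (t i)) h' :=
    θ_lift T h' H hH t'
  rw [h3, map_mul, aeval_C, map_mul, map_pow, map_pow, map_natCast] at h2
  have h4 : T.absK p ^ m * T.absK (aeval (fun i => T.sharp (t i)) h) ≤ T.absK p ^ m * ε := by
    rw [mul_comm _ ε]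
    exact h2.trans hc.le
  exact le_of_mul_le_mul_left h4 (pow_pos hpp m)

end Pool.Agent.Y129.TB
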